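import Pool.Agent.Run7.h364.CW.Crit

/-!
# Random shifts at the critical length, part 4: the number of the survivors up to constants
-/

set_option autoImplicit false

namespace Pool.Agent.Run7.h364.CW

open Finset Filter
open Pool.Agent.Run7.h931.RS

/-- the integers `N / 2 ≤ n ≤ N` -/
def up (N : ℕ) : Finset ℕ := (Icc 1 N).filter fun n => N ≤ 2 * n

/-- the window is long compared with the modulus -/
lemma ev_q (a w : ℕ) : ∀ᶠ N : ℕ in atTop, ∀ q : ℕ, (N : ℝ) ≤ q * Real.log N ^ a → Pw w * Wd w * Real.log N ≤ q := by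
  have h := (isLittleO_log_rpow_rpow_atTop ((a + 1 : ℕ) : ℝ) (zero_lt_one)).comp_tendsto tendsto_natCast_atTop_atTop
  have hP := one_le_Pw w
  have hW : (0 : ℝ) ≤ Wd w := Nat.cast_nonneg _
  have h' := h.bound (c := 1 / (Pw w * Wd w + 1)) (by positivity)
  filter_upwards [h', ev_log 1] with N g1 g2 q hq
  simp only [Function.comp, Real.rpow_natCast, Real.rpow_one] at g1
  have hN0 : (0 : ℝ) ≤ N := Nat.cast_nonneg _
  obtain ⟨L, hL⟩ : ∃ L, L = Real.log (N : ℝ) := ⟨_, rfl⟩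
  rw [← hL] at g1 g2 hq ⊢
  rw [Real.norm_of_nonneg (by positivity), Real.norm_of_nonneg hN0, div_mul_eq_mul_div, one_mul, le_div_iff₀ (by positivity)] at g1
  have h1 : Pw w * Wd w * L * L ^ a ≤ q * L ^ a := by
    have : L ^ (a + 1) = L * L ^ a := by ring
    rw [this] at g1
    have h0 : 0 ≤ L * L ^ a := by positivity
    nlinarith
  exact le_of_mul_le_mul_right h1 (by positivity)

/-- few shift vectors have many coordinates coprime to `W` -/
lemma cop_few {m : ℕ} (w q : ℕ) (b : Fin m → ℕ) (L B ε : ℝ) (hL : 1 ≤ L) (hq : 0 < q) (hqW : Pw w * Wd w * L ≤ q)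
    (hB : 1 ≤ B) (hε : 0 < ε) (hBε : Real.log (1 / ε) ≤ B ^ 2 / 8) (hm : (m : ℝ) ≤ L ^ 2) :
    (((Fintype.piFinset fun j => Ioc (b j) (b j + q)).filter fun s =>
      (1 / Pw w + Wd w / q) * m + B * Pw w * L < ((univ.filter fun j => s j ∈ cop (Wd w) (b j) q).card : ℝ)).card : ℝ) ≤
      ε * (q : ℝ) ^ m := by
  classical
  have hP := one_le_Pw w
  have hW : (0 : ℝ) < Wd w := by exact_mod_cast Wd_pos w
  have hqr : (0 : ℝ) < q := by exact_mod_cast hq
  have hm0 : (0 : ℝ) ≤ m := Nat.cast_nonneg m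
  obtain ⟨ρ, hρ⟩ : ∃ ρ, ρ = 1 / Pw w + Wd w / q := ⟨_, rfl⟩
  have hρ0 : 0 < ρ := by rw [hρ]; positivity
  have hρP : 1 / Pw w ≤ ρ := by rw [hρ]; have : 0 ≤ (Wd w : ℝ) / q := by positivity
                                linarith
  have hρ2 : ρ ≤ 2 := by
    have h1 : 1 / Pw w ≤ 1 := by rw [div_le_one (by linarith)]; exact hP
    have h2 : (Wd w : ℝ) / q ≤ 1 := by
      rw [div_le_one hqr]
      have : (1 : ℝ) * Wd w * 1 ≤ Pw w * Wd w * L := by gcongr
      linarith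
    rw [hρ]
    linarith
  rw [← hρ]
  rcases lt_or_ge (ρ * m) (B * L) with hlt | hge
  · -- few shifts: the number of the coordinates is at most `B P L`
    have hmm : (m : ℝ) ≤ B * Pw w * L := by
      have h1 : (1 / Pw w) * m ≤ ρ * m := mul_le_mul_of_nonneg_right hρP hm0
      have h2 : (m : ℝ) = Pw w * ((1 / Pw w) * m) := by field_simp
      have h3 : Pw w * ((1 / Pw w) * m) ≤ Pw w * (B * L) := mul_le_mul_of_nonneg_left (by linarith) (by linarith)
      linarith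
    have : ((Fintype.piFinset fun j => Ioc (b j) (b j + q)).filter fun s =>
      ρ * m + B * Pw w * L < ((univ.filter fun j => s j ∈ cop (Wd w) (b j) q).card : ℝ)) = ∅ := by
      rw [filter_eq_empty_iff]
      intro s _ h
      have h1 : ((univ.filter fun j => s j ∈ cop (Wd w) (b j) q).card : ℝ) ≤ m := by
        exact_mod_cast (card_filter_le _ _).trans (by rw [card_univ, Fintype.card_fin])
      have h2 : 0 ≤ ρ * m := by positivity
      linarith
    rw [this, card_empty, Nat.cast_zero]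
    positivity
  · have hm1 : 0 < (m : ℝ) := by
      rcases hm0.eq_or_lt with h | h
      · rw [← h, mul_zero] at hge
        have : 0 < B * L := by positivity
        linarith
      · exact h
    obtain ⟨d, hd⟩ : ∃ d, d = B * L / (ρ * m) := ⟨_, rfl⟩
    have hd0 : 0 < d := by rw [hd]; positivity
    have hd1 : d ≤ 1 := by rw [hd, div_le_one (by positivity)]; exact hge
    have hdm : d * (ρ * m) = B * L := by rw [hd]; field_simp
    have h1 := lln (fun j => Ioc (b j) (b j + q)) (fun j => cop (Wd w) (b j) q) (fun j => filter_subset _ _) ρ d hd0 hd1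
      (fun j => by
        have h := (abs_le.1 (cop_card w (b j) q)).2
        rw [Nat.card_Ioc, Nat.add_sub_cancel_left, hρ]
        have e : (1 / Pw w + (Wd w : ℝ) / q) * q = q / Pw w + Wd w := by field_simp
        rw [e]
        linarith)
    rw [prod_congr rfl fun j _ => by rw [Nat.card_Ioc, Nat.add_sub_cancel_left], prod_const, card_univ, Fintype.card_fin] at h1
    have h2 : ((Fintype.piFinset fun j => Ioc (b j) (b j + q)).filter fun s =>
        ρ * m + B * Pw w * L < ((univ.filter fun j => s j ∈ cop (Wd w) (b j) q).card : ℝ)) ⊆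
        (Fintype.piFinset fun j => Ioc (b j) (b j + q)).filter fun s =>
          (1 + d) * ρ * m < ((univ.filter fun j => s j ∈ cop (Wd w) (b j) q).card : ℝ) := by
      intro s hs
      rw [mem_filter] at hs ⊢
      refine ⟨hs.1, lt_of_le_of_lt ?_ hs.2⟩
      have e1 : (1 + d) * ρ * m = ρ * m + d * (ρ * m) := by ring
      rw [e1, hdm]
      have e2 : B * 1 * L ≤ B * Pw w * L := by gcongr
      linarith
    have h3 : Real.exp (-(d ^ 2 / 4 * ρ * m)) ≤ ε := by
      have e1 : d ^ 2 / 4 * ρ * m = (B * L) * (B * L) / (4 * (ρ * m)) := by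
        rw [← hdm]
        field_simp
      have e2 : B ^ 2 / 8 ≤ d ^ 2 / 4 * ρ * m := by
        rw [e1, div_le_div_iff₀ (by norm_num) (by positivity)]
        have f1 : ρ * m ≤ 2 * L ^ 2 := mul_le_mul hρ2 hm hm0 (by norm_num)
        have f2 : B ^ 2 * (4 * (ρ * m)) ≤ B ^ 2 * (4 * (2 * L ^ 2)) := by gcongr
        linarith
      have e3 : Real.exp (-(d ^ 2 / 4 * ρ * m)) ≤ Real.exp (-Real.log (1 / ε)) := Real.exp_le_exp.2 (by linarith)
      have e4 : Real.exp (-Real.log (1 / ε)) = ε := by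
        rw [Real.exp_neg, Real.exp_log (by positivity), one_div, inv_inv]
      rwa [e4] at e3
    have h4 : (0 : ℝ) ≤ (q : ℝ) ^ m := by positivity
    calc (((Fintype.piFinset fun j => Ioc (b j) (b j + q)).filter fun s =>
        ρ * m + B * Pw w * L < ((univ.filter fun j => s j ∈ cop (Wd w) (b j) q).card : ℝ)).card : ℝ) ≤
          ((Fintype.piFinset fun j => Ioc (b j) (b j + q)).filter fun s =>
          (1 + d) * ρ * m < ((univ.filter fun j => s j ∈ cop (Wd w) (b j) q).card : ℝ)).card := by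
            exact_mod_cast card_le_card h2
      _ ≤ Real.exp (-(d ^ 2 / 4 * ρ * m)) * (q : ℝ) ^ m := h1
      _ ≤ _ := mul_le_mul_of_nonneg_right h3 h4

/-- the number of the survivors, up to a constant, for all but few shift vectors -/
theorem count (T a : ℕ) (ε : ℝ) (hε : 0 < ε) (hε1 : ε ≤ 1) : ∃ K : ℝ, 1 ≤ K ∧ ∀ᶠ N : ℕ in atTop, ∀ q : ℕ,
    (N : ℝ) ≤ q * Real.log N ^ a → q ≤ N → ∀ (m : ℕ) (b : Fin m → ℕ), (∀ j, b j ≤ T * N) →
      (m : ℝ) ≤ Real.log N ^ 2 - K * Real.log N →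
      (((Fintype.piFinset fun j => Ioc (b j) (b j + q)).filter fun s =>
        ¬ (N * Real.exp (-(m / Real.log N)) / K ≤ (sv (up N) s).card ∧
          ((sv (Icc 1 N) s).card : ℝ) ≤ K * (N * Real.exp (-(m / Real.log N))))).card : ℝ) ≤ ε * (q : ℝ) ^ m := by
  classical
  obtain ⟨η, hη⟩ : ∃ η, η = ε / 200 := ⟨_, rfl⟩
  have hη0 : 0 < η := by rw [hη]; positivity
  have hη1 : η ≤ 1 / 200 := by rw [hη]; linarith
  obtain ⟨w, hw3, hw⟩ := sharp η hη0
  have hsh := hw w le_rfl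
  have hP := one_le_Pw w
  obtain ⟨δ, hδ⟩ : ∃ δ, δ = η / (8 * Pw w) := ⟨_, rfl⟩
  have hδ0 : 0 < δ := by rw [hδ]; positivity
  have hδη : δ ≤ η / 8 := by
    rw [hδ]
    apply div_le_div_of_nonneg_left hη0.le (by norm_num) (by linarith)
  have hδP : 4 * δ * Pw w = η / 2 := by rw [hδ]; field_simp; norm_num
  obtain ⟨K, hK, h1⟩ := crit_Z T a w 1 δ η (by norm_num) (by norm_num) hδ0 (by linarith) hη0
    (fun H => by simpa only [one_mul] using hsh H) (by
    rw [one_mul, hδP]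
    have := Real.abs_exp_sub_one_sub_id_le (x := η / 2) (by rw [abs_of_pos (by positivity)]; linarith)
    have := (abs_le.1 this).2
    nlinarith)
  obtain ⟨K', hK', h2⟩ := markov T a
  have hWpos := Wd_pos w
  have hWr : (1 : ℝ) ≤ Wd w := by exact_mod_cast hWpos
  -- the constants
  obtain ⟨A₀, hA₀⟩ : ∃ A₀, A₀ = Real.log (400 * Wd w / ε) + 2 * (K + 2 * Pw w) := ⟨_, rfl⟩
  have hA₀0 : 0 ≤ A₀ := by
    have : 0 ≤ Real.log (400 * Wd w / ε) := by
      apply Real.log_nonneg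
      rw [le_div_iff₀ hε]
      linarith
    rw [hA₀]
    positivity
  obtain ⟨B, hB⟩ : ∃ B, B = 1 + 8 * Real.log (4 / ε) := ⟨_, rfl⟩
  have hlog4 : 0 ≤ Real.log (4 / ε) := by
    apply Real.log_nonneg
    rw [le_div_iff₀ hε]
    linarith
  have hB1 : 1 ≤ B := by rw [hB]; linarith
  have hBε : Real.log (1 / (ε / 4)) ≤ B ^ 2 / 8 := by
    have : 1 / (ε / 4) = 4 / ε := by field_simp
    rw [this, hB]
    nlinarith
  obtain ⟨K₃, hK₃⟩ : ∃ K₃, K₃ = Pw w * (3 * K + 2) + 2 * Pw w ^ 2 := ⟨_, rfl⟩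
  have hK₃0 : 0 ≤ K₃ := by rw [hK₃]; positivity
  obtain ⟨K₄, hK₄⟩ : ∃ K₄, K₄ = 1 + B * Pw w ^ 2 + K₃ := ⟨_, rfl⟩
  obtain ⟨K₅, hK₅⟩ : ∃ K₅, K₅ = 1 + A₀ + 16 * Wd w * Real.exp K₄ + 4 / ε * Real.exp K' := ⟨_, rfl⟩
  have t1 : 0 ≤ 16 * Wd w * Real.exp K₄ := by positivity
  have t2 : 0 ≤ 4 / ε * Real.exp K' := by positivity
  refine ⟨K₅, by rw [hK₅]; linarith, ?_⟩
  filter_upwards [h1 (-A₀), h2, eventually_ge_atTop 3, ev_q a w, ev_log 2] with N g1 g2 g3 g4 g5 q hq hqN m b hb hm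
  obtain ⟨L, hL⟩ : ∃ L, L = Real.log (N : ℝ) := ⟨_, rfl⟩
  have hN0 : (0 : ℝ) < N := by exact_mod_cast (by omega : 0 < N)
  have hqW := g4 q hq
  have b1 := g2 q hq hqN m b hb (Icc 1 N) (fun n hn => (mem_Icc.1 hn).2)
  have g1' := g1 q hq hqN m b hb
  rw [← hL] at g5 hm hqW b1 g1' hq ⊢
  have hL0 : 0 < L := by linarith
  have hm0 : (0 : ℝ) ≤ m := Nat.cast_nonneg m
  have hA₅ : A₀ ≤ K₅ := by rw [hK₅]; linarith
  have hmA : (m : ℝ) ≤ L ^ 2 + -A₀ * L := by
    have : A₀ * L ≤ K₅ * L := mul_le_mul_of_nonneg_right hA₅ hL0.le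
    linarith
  have hmL : (m : ℝ) ≤ L ^ 2 := by
    have : 0 ≤ A₀ * L := by positivity
    linarith
  obtain ⟨n, R, a1, a2, a3, a4, a5, _⟩ := g1' (by rw [one_mul]; exact hmL) hmA
  have a6 := a5 (1 / 2) (by norm_num)
  have hqpos : 0 < q := by
    rcases Nat.eq_zero_or_pos q with h0 | h0
    · rw [h0, Nat.cast_zero, zero_mul] at hq
      linarith
    · exact h0
  have hqm : (0 : ℝ) ≤ (q : ℝ) ^ m := by positivity
  obtain ⟨Ω, hΩ⟩ : ∃ Ω, Ω = Fintype.piFinset fun j => Ioc (b j) (b j + q) := ⟨_, rfl⟩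
  -- the three bad sets
  obtain ⟨B1, hB1'⟩ : ∃ B1, B1 = Ω.filter fun s => 1 / 2 * R < |Zs w q b n R s - R| := ⟨_, rfl⟩
  obtain ⟨B2, hB2'⟩ : ∃ B2, B2 = Ω.filter fun s => (1 / Pw w + Wd w / q) * m + B * Pw w * L <
    ((univ.filter fun j => s j ∈ cop (Wd w) (b j) q).card : ℝ) := ⟨_, rfl⟩
  obtain ⟨B3, hB3'⟩ : ∃ B3, B3 = Ω.filter fun s => K₅ * (N * Real.exp (-(m / L))) < ((sv (Icc 1 N) s).card : ℝ) := ⟨_, rfl⟩
  have c2 : (B2.card : ℝ) ≤ ε / 4 * (q : ℝ) ^ m := by
    rw [hB2', hΩ]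
    exact cop_few w q b L B (ε / 4) (by linarith) hqpos hqW hB1 (by positivity) hBε hmL
  rw [← hΩ] at a6 b1 ⊢
  rw [← hB1'] at a6
  have c1 : (B1.card : ℝ) ≤ ε / 4 * (q : ℝ) ^ m := by
    have e1 : 8 * Wd w * Real.exp (-A₀ + 2 * (K + 2 * Pw w)) = ε / 50 := by
      have : -A₀ + 2 * (K + 2 * Pw w) = -Real.log (400 * Wd w / ε) := by rw [hA₀]; ring
      rw [this, Real.exp_neg, Real.exp_log (by positivity)]
      field_simp
      norm_num
    rw [e1] at a6
    have e2 : 4 * η + 2 * η ^ 2 + ε / 50 ≤ ε / 16 := by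
      rw [hη]
      nlinarith
    have e3 : (4 * η + 2 * η ^ 2 + ε / 50) * (q : ℝ) ^ m ≤ ε / 16 * (q : ℝ) ^ m := mul_le_mul_of_nonneg_right e2 hqm
    linarith
  have c3 : (B3.card : ℝ) ≤ ε / 4 * (q : ℝ) ^ m := by
    have d1 : (B3.card : ℝ) * (K₅ * (N * Real.exp (-(m / L)))) ≤ ∑ s ∈ Ω, ((sv (Icc 1 N) s).card : ℝ) := by
      rw [← nsmul_eq_mul, ← sum_const, hB3']
      refine le_trans (sum_le_sum (fun s hs => ?_)) (sum_le_sum_of_subset_of_nonneg (filter_subset _ _) fun s _ _ => Nat.cast_nonneg _)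
      exact (mem_filter.1 hs).2.le
    have d2 := d1.trans b1
    rw [Nat.card_Icc, Nat.add_sub_cancel] at d2
    have d3 : Real.exp (K' * (m / L ^ 2) - m / L) ≤ Real.exp K' * Real.exp (-(m / L)) := by
      rw [← Real.exp_add]
      apply Real.exp_le_exp.2
      have : (m : ℝ) / L ^ 2 ≤ 1 := by rw [div_le_one (by positivity)]; exact hmL
      have := mul_le_of_le_one_right hK' this
      linarith
    have d4 : (N : ℝ) * ((q : ℝ) ^ m * Real.exp (K' * (m / L ^ 2) - m / L)) ≤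
        (Real.exp K' * (q : ℝ) ^ m) * (N * Real.exp (-(m / L))) := by
      calc (N : ℝ) * ((q : ℝ) ^ m * Real.exp (K' * (m / L ^ 2) - m / L)) ≤
          N * ((q : ℝ) ^ m * (Real.exp K' * Real.exp (-(m / L)))) := by gcongr
        _ = _ := by ring
    have d5 := d2.trans d4
    have d6 : (B3.card : ℝ) * K₅ * (N * Real.exp (-(m / L))) ≤ (Real.exp K' * (q : ℝ) ^ m) * (N * Real.exp (-(m / L))) := by
      linarith
    have d7 := le_of_mul_le_mul_right d6 (by positivity)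
    have d8 : 4 / ε * Real.exp K' ≤ K₅ := by rw [hK₅]; linarith
    have d9 : (B3.card : ℝ) * (4 / ε * Real.exp K') ≤ Real.exp K' * (q : ℝ) ^ m :=
      (mul_le_mul_of_nonneg_left d8 (Nat.cast_nonneg _)).trans d7
    have d10 : (B3.card : ℝ) * (4 / ε * Real.exp K') = Real.exp K' * (B3.card * (4 / ε)) := by ring
    rw [d10] at d9
    have d11 := le_of_mul_le_mul_left d9 (Real.exp_pos _)
    have d12 : (B3.card : ℝ) * (4 / ε) * (ε / 4) ≤ (q : ℝ) ^ m * (ε / 4) := mul_le_mul_of_nonneg_right d11 (by positivity)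
    have d13 : (B3.card : ℝ) * (4 / ε) * (ε / 4) = B3.card := by field_simp
    linarith
  -- every other vector of shifts is good
  have c4 : (Ω.filter fun s => ¬ (N * Real.exp (-(m / L)) / K₅ ≤ (sv (up N) s).card ∧
      ((sv (Icc 1 N) s).card : ℝ) ≤ K₅ * (N * Real.exp (-(m / L))))) ⊆ B1 ∪ (B2 ∪ B3) := by
    intro s hs
    rw [mem_filter] at hs
    obtain ⟨hsΩ, hs⟩ := hs
    by_contra hnot
    rw [mem_union, mem_union, not_or, not_or] at hnot
    obtain ⟨n1, n2, n3⟩ := hnot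
    rw [hB1', mem_filter, not_and, not_lt] at n1
    rw [hB2', mem_filter, not_and, not_lt] at n2
    rw [hB3', mem_filter, not_and, not_lt] at n3
    apply hs
    refine ⟨?_, n3 hsΩ⟩
    have n1' := (abs_le.1 (n1 hsΩ)).1
    have n2' := n2 hsΩ
    obtain ⟨c, hc⟩ : ∃ c : ℝ, c = ((univ.filter fun j => s j ∈ cop (Wd w) (b j) q).card : ℝ) := ⟨_, rfl⟩
    have f1 := Zs_le' w q b n R L δ K a4 hK g5 hqW a3 (up N) (fun k hk => by
      have := a2 k hk
      unfold up
      rw [mem_filter, mem_Icc]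
      omega) s (by rw [← hΩ]; exact hsΩ)
    rw [← hc, ← hK₃] at f1
    rw [← hc] at n2'
    have hc0 : 0 ≤ c := by rw [hc]; exact Nat.cast_nonneg _
    have hcm : c ≤ m := by
      rw [hc]
      exact_mod_cast (card_filter_le _ _).trans (by rw [card_univ, Fintype.card_fin])
    have hqr : (0 : ℝ) < q := by exact_mod_cast hqpos
    have f2 : (Pw w / L + K₃ / L ^ 2) * c ≤ m / L + K₄ := by
      have e1 : (Pw w / L) * c ≤ (Pw w / L) * ((1 / Pw w + Wd w / q) * m + B * Pw w * L) :=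
        mul_le_mul_of_nonneg_left n2' (by positivity)
      have e2 : (Pw w / L) * ((1 / Pw w + Wd w / q) * m + B * Pw w * L) =
          m / L + (Pw w * Wd w / q) * (m / L) + B * Pw w ^ 2 := by
        field_simp
      have e3 : (Pw w * Wd w / q) * (m / L) ≤ 1 := by
        have f1 : Pw w * Wd w / q ≤ 1 / L := by
          rw [div_le_div_iff₀ hqr hL0, one_mul]
          exact hqW
        have f2 : (m : ℝ) / L ≤ L := by rw [div_le_iff₀ hL0]; nlinarith
        calc (Pw w * Wd w / q) * (m / L) ≤ (1 / L) * L := mul_le_mul f1 f2 (by positivity) (by positivity)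
          _ = 1 := by field_simp
      have e4 : K₃ / L ^ 2 * c ≤ K₃ := by
        rw [div_mul_eq_mul_div, div_le_iff₀ (by positivity)]
        exact mul_le_mul_of_nonneg_left (by linarith) hK₃0
      rw [add_mul, hK₄]
      linarith
    have f3 := Real.exp_le_exp.2 f2
    have f4 : (0 : ℝ) ≤ (sv (up N) s).card := Nat.cast_nonneg _
    have f5 : (N : ℝ) / (16 * Wd w) ≤ ((sv (up N) s).card : ℝ) * Real.exp (m / L + K₄) := by
      have e1 := f1.trans (mul_le_mul_of_nonneg_left f3 f4)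
      have e2 : (N : ℝ) / (16 * Wd w) = (N / (8 * Wd w)) / 2 := by field_simp; norm_num
      linarith
    have f6 : 16 * Wd w * Real.exp K₄ ≤ K₅ := by rw [hK₅]; linarith
    have f7 : (N : ℝ) ≤ (16 * Wd w * Real.exp K₄) * ((sv (up N) s).card * Real.exp (m / L)) := by
      rw [div_le_iff₀ (by positivity), Real.exp_add] at f5
      linarith
    have f8 : (N : ℝ) ≤ K₅ * ((sv (up N) s).card * Real.exp (m / L)) :=
      f7.trans (mul_le_mul_of_nonneg_right f6 (by positivity))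
    have hK₅0 : 0 < K₅ := by rw [hK₅]; positivity
    rw [div_le_iff₀ hK₅0, Real.exp_neg, mul_inv_le_iff₀ (Real.exp_pos _)]
    linarith
  have c5 : (((Ω.filter fun s => ¬ (N * Real.exp (-(m / L)) / K₅ ≤ (sv (up N) s).card ∧
      ((sv (Icc 1 N) s).card : ℝ) ≤ K₅ * (N * Real.exp (-(m / L)))))).card : ℝ) ≤ B1.card + (B2.card + B3.card) := by
    have := (card_le_card c4).trans ((card_union_le B1 (B2 ∪ B3)).trans (Nat.add_le_add_left (card_union_le B2 B3) _))
    exact_mod_cast this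
  refine c5.trans ?_
  have : 0 ≤ ε / 4 * (q : ℝ) ^ m := by positivity
  linarith

end Pool.Agent.Run7.h364.CW
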