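import Pool.Agent.Run7.h931.RS.Final

/-!
# Random shifts at the critical length, part 1: one coordinate with errors `O(1 / L²)`
-/

set_option autoImplicit false

namespace Pool.Agent.Run7.h364.CW

open Finset Filter
open Pool.Agent.Run7.h931.RS

/-- the square mean of one weight, with the error `O(1 / L²)` -/
lemma diag {w : ℕ} {L δ K : ℝ} {q b n : ℕ} (h : Cd w L δ K q b n) :
    ∑ v ∈ Ioc b (b + q), wt (cop (Wd w) b q) (hit b q n) v * wt (cop (Wd w) b q) (hit b q n) v ≤
      Real.exp (1 / L + (K + 2 * Pw w) / L ^ 2) * (Ioc b (b + q)).card := by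
  classical
  have hδ := h.hδ
  have hδ1 := h.hδ1
  have hL := h.hL
  have hP := one_le_Pw w
  have hq : (0 : ℝ) < q := by exact_mod_cast h.hq
  have hsub := hit_sub w b q n h.hn h.hWn
  have h1 := h.theta
  have h2 := h.ub
  have h3 := h.ucard.1
  have h4 : (0 : ℝ) < (cop (Wd w) b q).card := by exact_mod_cast h.ucard.2.2.1
  have h5 : ((hit b q n).card : ℝ) ≤ q / L + K * (q / L ^ 2) := by rw [hit_card]; exact h.hi
  have hlt : (hit b q n).card < (cop (Wd w) b q).card := by
    have : ((hit b q n).card : ℝ) < (cop (Wd w) b q).card := by nlinarith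
    exact_mod_cast this
  rw [wt_pair (Ioc b (b + q)) (cop (Wd w) b q) (hit b q n) (hit b q n) (filter_subset _ _) hsub hsub hlt hlt, inter_self,
    Nat.card_Ioc, Nat.add_sub_cancel_left]
  obtain ⟨U, hU⟩ : ∃ U : ℝ, U = (cop (Wd w) b q).card := ⟨_, rfl⟩
  obtain ⟨A, hA⟩ : ∃ A : ℝ, A = (hit b q n).card := ⟨_, rfl⟩
  simp only [← hU, ← hA] at h1 h2 h3 h4 h5 ⊢
  have hA0 : 0 ≤ A := by rw [hA]; exact Nat.cast_nonneg _
  have hAU : A ≤ U / 16 := by nlinarith
  have hUA : 0 < U - A := by linarith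
  have e1 : U ^ 2 / ((U - A) * (U - A)) * (A - A * A / U) = A + A * A / (U - A) := by
    field_simp
    ring
  rw [e1]
  -- the quadratic term
  have e2 : A * A / (U - A) ≤ 2 * Pw w * (q / L ^ 2) := by
    rw [div_le_iff₀ hUA]
    have f1 : A ≤ 17 / 16 * (q / L) := by
      have : (1 + δ / 4) * (q / L) ≤ 17 / 16 * (q / L) := mul_le_mul_of_nonneg_right (by linarith) (by positivity)
      linarith
    have f2 : 15 / 16 * (q / Pw w) ≤ U := by
      have : 15 / 16 * (q / Pw w) ≤ (1 - δ / 4) * (q / Pw w) := mul_le_mul_of_nonneg_right (by linarith) (by positivity)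
      linarith
    have f3 : A * A ≤ (17 / 16 * (q / L)) * (17 / 16 * (q / L)) := mul_le_mul f1 f1 hA0 (by positivity)
    have f4 : 15 / 16 * (15 / 16 * (q / Pw w)) ≤ U - A := by nlinarith
    have f5 : 2 * Pw w * (q / L ^ 2) * (15 / 16 * (15 / 16 * (q / Pw w))) ≤ 2 * Pw w * (q / L ^ 2) * (U - A) :=
      mul_le_mul_of_nonneg_left f4 (by positivity)
    have f6 : 2 * Pw w * (q / L ^ 2) * (15 / 16 * (15 / 16 * (q / Pw w))) = (2 * (15 / 16) * (15 / 16)) * (q / L) ^ 2 := by
      field_simp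
    have f7 : (17 / 16 * ((q : ℝ) / L)) * (17 / 16 * (q / L)) ≤ (2 * (15 / 16) * (15 / 16)) * (q / L) ^ 2 := by
      have : 0 ≤ ((q : ℝ) / L) ^ 2 := by positivity
      nlinarith
    linarith
  have e3 := Real.add_one_le_exp (1 / L + (K + 2 * Pw w) / L ^ 2)
  have e4 : (1 / L + (K + 2 * Pw w) / L ^ 2 + 1) * (q : ℝ) = q + (q / L + K * (q / L ^ 2) + 2 * Pw w * (q / L ^ 2)) := by
    ring
  have e5 := mul_le_mul_of_nonneg_right e3 hq.le
  rw [e4] at e5
  linarith

/-- the size of one weight, with the error `O(1 / L²)` -/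
lemma wt_le {w : ℕ} {L δ K : ℝ} {q b n : ℕ} (h : Cd w L δ K q b n) (hK : 0 ≤ K) (hL2 : 2 ≤ L)
    (hqW : Pw w * Wd w * L ≤ q) (v : ℕ) :
    wt (cop (Wd w) b q) (hit b q n) v ≤ if v ∈ cop (Wd w) b q then
      Real.exp (Pw w / L + (Pw w * (3 * K + 2) + 2 * Pw w ^ 2) / L ^ 2) else 1 := by
  classical
  have hδ := h.hδ
  have hδ1 := h.hδ1
  have hL := h.hL
  have hP := one_le_Pw w
  have hq : (0 : ℝ) < q := by exact_mod_cast h.hq
  unfold wt
  by_cases h1 : v ∈ hit b q n
  · rw [if_pos h1]
    split_ifs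
    · exact (Real.exp_pos _).le
    · exact zero_le_one
  · rw [if_neg h1]
    by_cases h2 : v ∈ cop (Wd w) b q
    · rw [if_pos h2, if_pos h2]
      have h3 := h.theta
      have h4 := h.ub
      have h5 := h.ucard.1
      have h6 : ((hit b q n).card : ℝ) ≤ q / L + K * (q / L ^ 2) := by rw [hit_card]; exact h.hi
      have h7 := (abs_le.1 (cop_card w b q)).1
      obtain ⟨U, hU⟩ : ∃ U : ℝ, U = (cop (Wd w) b q).card := ⟨_, rfl⟩
      obtain ⟨A, hA⟩ : ∃ A : ℝ, A = (hit b q n).card := ⟨_, rfl⟩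
      simp only [← hU, ← hA] at h3 h4 h5 h6 h7 ⊢
      have hA0 : 0 ≤ A := by rw [hA]; exact Nat.cast_nonneg _
      have hU0 : 0 < U := lt_of_lt_of_le (mul_pos (by linarith) (by positivity)) h5
      have hAU : A ≤ U / 16 := by nlinarith
      have hUA : 0 < U - A := by linarith
      have h9 : U / (U - A) = A / (U - A) + 1 := by field_simp; ring
      rw [h9]
      refine (Real.add_one_le_exp _).trans (Real.exp_le_exp.2 ?_)
      -- `A / U` is at most `(P / L) (1 + (3 K + 2) / L)`
      have a1 : (q / Pw w) * (1 - 1 / L) ≤ U := by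
        have f1 : (Wd w : ℝ) ≤ (q / Pw w) * (1 / L) := by
          rw [div_mul_div_comm, mul_one, le_div_iff₀ (by positivity)]
          linarith
        have : (q / Pw w) * (1 - 1 / L) = q / Pw w - (q / Pw w) * (1 / L) := by ring
        linarith
      have a2 : A / U ≤ (Pw w / L) * (1 + (3 * K + 2) / L) := by
        rw [div_le_iff₀ hU0]
        have f1 : (Pw w / L) * (1 + (3 * K + 2) / L) * ((q / Pw w) * (1 - 1 / L)) ≤ (Pw w / L) * (1 + (3 * K + 2) / L) * U :=
          mul_le_mul_of_nonneg_left a1 (by positivity)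
        have f2 : (Pw w / L) * (1 + (3 * K + 2) / L) * ((q / Pw w) * (1 - 1 / L)) =
            (q / L) * ((1 + (3 * K + 2) / L) * (1 - 1 / L)) := by field_simp
        have f3 : 1 + K / L ≤ (1 + (3 * K + 2) / L) * (1 - 1 / L) := by
          have g1 : (1 + (3 * K + 2) / L) * (1 - 1 / L) - (1 + K / L) = ((2 * K + 1) * L - (3 * K + 2)) / L ^ 2 := by
            field_simp
            ring
          have g2 : 0 ≤ ((2 * K + 1) * L - (3 * K + 2)) / L ^ 2 := div_nonneg (by nlinarith) (by positivity)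
          linarith
        have f4 : q / L + K * (q / L ^ 2) = (q / L) * (1 + K / L) := by field_simp
        have f5 : (q / L) * (1 + K / L) ≤ (q / L) * ((1 + (3 * K + 2) / L) * (1 - 1 / L)) :=
          mul_le_mul_of_nonneg_left f3 (by positivity)
        linarith
      have a3 : A / U ≤ 17 / 15 * (Pw w / L) := by
        rw [div_le_iff₀ hU0]
        have f1 : A ≤ 17 / 16 * (q / L) := by
          have : (1 + δ / 4) * (q / L) ≤ 17 / 16 * (q / L) := mul_le_mul_of_nonneg_right (by linarith) (by positivity)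
          linarith
        have f2 : 15 / 16 * (q / Pw w) ≤ U := by
          have : 15 / 16 * (q / Pw w) ≤ (1 - δ / 4) * (q / Pw w) := mul_le_mul_of_nonneg_right (by linarith) (by positivity)
          linarith
        have f3 : 17 / 15 * (Pw w / L) * (15 / 16 * (q / Pw w)) ≤ 17 / 15 * (Pw w / L) * U :=
          mul_le_mul_of_nonneg_left f2 (by positivity)
        have f4 : 17 / 15 * (Pw w / L) * (15 / 16 * (q / Pw w)) = 17 / 16 * (q / L) := by
          field_simp
        linarith
      have a4 : A / (U - A) ≤ A / U + 16 / 15 * (A / U) ^ 2 := by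
        have f1 : A / (U - A) = A / U + (A / U) * (A / (U - A)) := by field_simp; ring
        have f2 : A / (U - A) ≤ 16 / 15 * (A / U) := by
          rw [div_le_iff₀ hUA]
          have g1 : 16 / 15 * (A / U) * (U - A) = 16 / 15 * (A - A * (A / U)) := by field_simp
          rw [g1]
          have g2 : A / U ≤ 1 / 16 := by rw [div_le_iff₀ hU0]; linarith
          nlinarith
        have f3 : (A / U) * (A / (U - A)) ≤ (A / U) * (16 / 15 * (A / U)) := mul_le_mul_of_nonneg_left f2 (by positivity)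
        rw [f1]
        nlinarith
      have a5 : (A / U) ^ 2 ≤ (17 / 15 * (Pw w / L)) ^ 2 := pow_le_pow_left₀ (by positivity) a3 2
      have a6 : (Pw w / L) * (1 + (3 * K + 2) / L) + 16 / 15 * (17 / 15 * (Pw w / L)) ^ 2 ≤
          Pw w / L + (Pw w * (3 * K + 2) + 2 * Pw w ^ 2) / L ^ 2 := by
        have f1 : (Pw w / L) * (1 + (3 * K + 2) / L) = Pw w / L + Pw w * (3 * K + 2) / L ^ 2 := by field_simp
        have f2 : 16 / 15 * (17 / 15 * (Pw w / L)) ^ 2 = (16 / 15 * (17 / 15) ^ 2) * (Pw w ^ 2 / L ^ 2) := by field_simp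
        have f3 : (Pw w * (3 * K + 2) + 2 * Pw w ^ 2) / L ^ 2 = Pw w * (3 * K + 2) / L ^ 2 + 2 * (Pw w ^ 2 / L ^ 2) := by ring
        have f4 : 0 ≤ Pw w ^ 2 / L ^ 2 := by positivity
        rw [f1, f2, f3]
        nlinarith
      linarith
    · rw [if_neg h2, if_neg h2]

/-- the weighted number is at most the number of the survivors times the size of the weights -/
lemma Zs_le' {m : ℕ} (w q : ℕ) (b : Fin m → ℕ) (n : ℕ → ℕ) (R : ℕ) (L δ K : ℝ)
    (hc : ∀ k < R, ∀ j, Cd w L δ K q (b j) (n k)) (hK : 0 ≤ K) (hL2 : 2 ≤ L) (hqW : Pw w * Wd w * L ≤ q)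
    (hinj : ∀ k k', n k = n k' → k = k') (M : Finset ℕ) (hnk : ∀ k < R, n k ∈ M) (s : Fin m → ℕ)
    (hs : s ∈ Fintype.piFinset fun j => Ioc (b j) (b j + q)) :
    Zs w q b n R s ≤ ((sv M s).card : ℝ) *
      Real.exp ((Pw w / L + (Pw w * (3 * K + 2) + 2 * Pw w ^ 2) / L ^ 2) *
        (univ.filter fun j => s j ∈ cop (Wd w) (b j) q).card) := by
  classical
  rw [Fintype.mem_piFinset] at hs
  obtain ⟨β, hβ⟩ : ∃ β, β = Pw w / L + (Pw w * (3 * K + 2) + 2 * Pw w ^ 2) / L ^ 2 := ⟨_, rfl⟩
  obtain ⟨c, hcc⟩ : ∃ c : ℕ, c = (univ.filter fun j => s j ∈ cop (Wd w) (b j) q).card := ⟨_, rfl⟩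
  rw [← hβ, ← hcc]
  have h1 : ∀ k ∈ range R, ∏ j, wt (cop (Wd w) (b j) q) (hit (b j) q (n k)) (s j) ≤
      if n k ∈ sv M s then Real.exp (β * c) else 0 := by
    intro k hk
    rw [mem_range] at hk
    by_cases hsv : n k ∈ sv M s
    · rw [if_pos hsv]
      calc ∏ j, wt (cop (Wd w) (b j) q) (hit (b j) q (n k)) (s j) ≤
          ∏ j : Fin m, (if s j ∈ cop (Wd w) (b j) q then Real.exp β else 1) := by
            apply Finset.prod_le_prod
            · exact fun j _ => wt_nonneg _ _ (hit_sub w (b j) q (n k) (hc k hk j).hn (hc k hk j).hWn) _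
            · intro j _
              rw [hβ]
              exact wt_le (hc k hk j) hK hL2 hqW (s j)
        _ = _ := by
            rw [prod_ite, prod_const, prod_const_one, mul_one, ← Real.exp_nat_mul, hcc]
            congr 1
            ring
    · rw [if_neg hsv]
      unfold sv at hsv
      rw [mem_filter, not_and_or] at hsv
      rcases hsv with hsv | hsv
      · exact absurd (hnk k hk) hsv
      · push Not at hsv
        obtain ⟨j, hj⟩ := hsv
        apply le_of_eq
        apply prod_eq_zero (mem_univ j)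
        unfold wt
        rw [if_pos]
        unfold hit
        rw [mem_filter]
        exact ⟨hs j, hj⟩
  refine (sum_le_sum h1).trans ?_
  rw [← sum_filter, sum_const, nsmul_eq_mul]
  apply mul_le_mul_of_nonneg_right _ (Real.exp_pos _).le
  have h2 : ((range R).filter fun k => n k ∈ sv M s).card ≤ (sv M s).card := by
    apply card_le_card_of_injOn n
    · intro k hk
      have hk' : k ∈ (range R).filter fun k => n k ∈ sv M s := by exact_mod_cast hk
      exact_mod_cast (mem_filter.1 hk').2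
    · intro k _ k' _ hkk
      exact hinj k k' hkk
  exact_mod_cast h2

end Pool.Agent.Run7.h364.CW
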