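import Pool.Agent.Run7.h364.CW.Coord

/-!
# Random shifts at the critical length, part 2: the second moment
-/

set_option autoImplicit false

namespace Pool.Agent.Run7.h364.CW

open Finset Filter
open Pool.Agent.Run7.h931.RS

/-- the second moment method (Paley-Zygmund): the weighted number of the survivors is often not zero -/
theorem pz {m : ℕ} (Ω : Fin m → Finset ℕ) (M : Finset ℕ) (hne : M.Nonempty) (w : ℕ → Fin m → ℕ → ℝ)
    (hone : ∀ n ∈ M, ∀ j, ∑ v ∈ Ω j, w n j v = (Ω j).card) (e : ℕ → ℕ → ℝ)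
    (htwo : ∀ n ∈ M, ∀ n' ∈ M, ∏ j, ∑ v ∈ Ω j, w n j v * w n' j v ≤ e n n' * ∏ j, ((Ω j).card : ℝ)) (η : ℝ)
    (hη : 0 ≤ 1 + η) (he : ∑ n ∈ M, ∑ n' ∈ M, e n n' ≤ (1 + η) * (M.card : ℝ) ^ 2) :
    ∏ j, ((Ω j).card : ℝ) ≤
      (1 + η) * ((Fintype.piFinset Ω).filter fun s => ∑ n ∈ M, ∏ j, w n j (s j) ≠ 0).card := by
  classical
  obtain ⟨Q, hQ⟩ : ∃ Q : ℝ, Q = ∏ j, ((Ω j).card : ℝ) := ⟨_, rfl⟩
  have hQ0 : 0 ≤ Q := by rw [hQ]; exact prod_nonneg fun _ _ => Nat.cast_nonneg _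
  rw [← hQ] at htwo ⊢
  have hM : (0 : ℝ) < M.card := by exact_mod_cast hne.card_pos
  obtain ⟨F, hF⟩ : ∃ F, F = (Fintype.piFinset Ω).filter fun s => ∑ n ∈ M, ∏ j, w n j (s j) ≠ 0 := ⟨_, rfl⟩
  rw [← hF]
  have h1 : ∑ s ∈ F, ∑ n ∈ M, ∏ j, w n j (s j) = M.card * Q := by
    rw [hF, sum_filter_ne_zero, mom_one, sum_congr rfl fun n hn => prod_congr rfl fun j _ => hone n hn j, sum_const,
      nsmul_eq_mul, hQ]
  have h2 : ∑ s ∈ F, (∑ n ∈ M, ∏ j, w n j (s j)) ^ 2 ≤ (1 + η) * (M.card : ℝ) ^ 2 * Q := by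
    calc ∑ s ∈ F, (∑ n ∈ M, ∏ j, w n j (s j)) ^ 2 ≤ ∑ s ∈ Fintype.piFinset Ω, (∑ n ∈ M, ∏ j, w n j (s j)) ^ 2 := by
          rw [hF]
          exact sum_le_sum_of_subset_of_nonneg (filter_subset _ _) fun s _ _ => sq_nonneg _
      _ = ∑ n ∈ M, ∑ n' ∈ M, ∏ j, ∑ v ∈ Ω j, w n j v * w n' j v := mom_two _ _ _
      _ ≤ ∑ n ∈ M, ∑ n' ∈ M, e n n' * Q := sum_le_sum fun n hn => sum_le_sum fun n' hn' => htwo n hn n' hn'
      _ = (∑ n ∈ M, ∑ n' ∈ M, e n n') * Q := by rw [sum_mul]; exact sum_congr rfl fun n _ => by rw [sum_mul]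
      _ ≤ _ := mul_le_mul_of_nonneg_right he hQ0
  have h3 : (∑ s ∈ F, ∑ n ∈ M, ∏ j, w n j (s j)) ^ 2 ≤ F.card * ∑ s ∈ F, (∑ n ∈ M, ∏ j, w n j (s j)) ^ 2 := by
    have := sq_sum_le_card_mul_sum_sq (s := F) (f := fun s => ∑ n ∈ M, ∏ j, w n j (s j))
    exact this
  rw [h1] at h3
  have h4 : ((M.card : ℝ) * Q) ^ 2 ≤ F.card * ((1 + η) * (M.card : ℝ) ^ 2 * Q) :=
    h3.trans (mul_le_mul_of_nonneg_left h2 (Nat.cast_nonneg _))
  rcases hQ0.eq_or_lt with h0 | h0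
  · rw [← h0]
    exact mul_nonneg hη (Nat.cast_nonneg _)
  · have h5 : (M.card : ℝ) ^ 2 * Q * Q ≤ (M.card : ℝ) ^ 2 * Q * ((1 + η) * F.card) := by
      calc (M.card : ℝ) ^ 2 * Q * Q = ((M.card : ℝ) * Q) ^ 2 := by ring
        _ ≤ F.card * ((1 + η) * (M.card : ℝ) ^ 2 * Q) := h4
        _ = _ := by ring
    exact le_of_mul_le_mul_left h5 (by positivity)

/-- the second moment of the weighted number of the survivors; both conclusions -/
theorem secmom2 {m : ℕ} (w q : ℕ) (b : Fin m → ℕ) (n : ℕ → ℕ) (hn : ∀ k h, n (k + h) = n k + Wd w * h) (R : ℕ) (hR : 0 < R)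
    (L δ K : ℝ) (hc : ∀ k < R, ∀ j, Cd w L δ K q (b j) (n k)) (g : ℕ → ℕ → ℝ)
    (hg : ∀ k h, 1 ≤ h → k + h < R → ∀ j, ∑ v ∈ Ioc (b j) (b j + q), wt (cop (Wd w) (b j) q) (hit (b j) q (n k)) v *
      wt (cop (Wd w) (b j) q) (hit (b j) q (n k + Wd w * h)) v ≤ Real.exp (g k h / L ^ 2) * (Ioc (b j) (b j + q)).card)
    (η : ℝ) (hη : 0 ≤ 1 + η)
    (hsum : R * Real.exp (m * (1 / L + (K + 2 * Pw w) / L ^ 2)) +
      2 * ∑ k ∈ range R, ∑ h ∈ Icc 1 (R - 1 - k), Real.exp (m * (g k h / L ^ 2)) ≤ (1 + η) * (R : ℝ) ^ 2) :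
    (∀ τ : ℝ, 0 < τ →
      (((Fintype.piFinset fun j => Ioc (b j) (b j + q)).filter fun s => τ * R < |Zs w q b n R s - R|).card : ℝ) * τ ^ 2 ≤
        η * (q : ℝ) ^ m) ∧
    (q : ℝ) ^ m ≤ (1 + η) * ((Fintype.piFinset fun j => Ioc (b j) (b j + q)).filter fun s => Zs w q b n R s ≠ 0).card := by
  classical
  obtain ⟨e, he⟩ : ∃ e : ℕ → ℕ → ℝ, e = fun k k' => if k = k' then Real.exp (m * (1 / L + (K + 2 * Pw w) / L ^ 2)) else
      Real.exp (m * (g (min k k') (max k k' - min k k') / L ^ 2)) := ⟨_, rfl⟩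
  have h0 : ∀ k, e k k = Real.exp (m * (1 / L + (K + 2 * Pw w) / L ^ 2)) := fun k => by rw [he]; simp
  have h1 : ∀ k h, 1 ≤ h → e k (k + h) = Real.exp (m * (g k h / L ^ 2)) := fun k h hh => by
    rw [he]
    simp only
    rw [if_neg (by omega), min_eq_left (by omega), max_eq_right (by omega), Nat.add_sub_cancel_left]
  have h2 : ∀ k h, 1 ≤ h → e (k + h) k = Real.exp (m * (g k h / L ^ 2)) := fun k h hh => by
    rw [he]
    simp only
    rw [if_neg (by omega), min_eq_right (by omega), max_eq_left (by omega), Nat.add_sub_cancel_left]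
  have hwn : ∀ k < R, ∀ j v, 0 ≤ wt (cop (Wd w) (b j) q) (hit (b j) q (n k)) v := fun k hk j v =>
    wt_nonneg _ _ (hit_sub w (b j) q (n k) (hc k hk j).hn (hc k hk j).hWn) v
  have hone : ∀ k ∈ range R, ∀ j, ∑ v ∈ Ioc (b j) (b j + q), wt (cop (Wd w) (b j) q) (hit (b j) q (n k)) v =
      (Ioc (b j) (b j + q)).card := fun k hk j => by
    rw [mem_range] at hk
    have hcd := hc k hk j
    apply wt_sum
    · exact filter_subset _ _
    · exact hit_sub w (b j) q (n k) hcd.hn hcd.hWn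
    · have h3 := hcd.theta
      have h4 : (0 : ℝ) < (cop (Wd w) (b j) q).card := by exact_mod_cast hcd.ucard.2.2.1
      have h5 := hcd.hδ1
      have h6 : ((hit (b j) q (n k)).card : ℝ) < (cop (Wd w) (b j) q).card := by nlinarith
      exact_mod_cast h6
  have htwo : ∀ k ∈ range R, ∀ k' ∈ range R, ∏ j, ∑ v ∈ Ioc (b j) (b j + q),
      wt (cop (Wd w) (b j) q) (hit (b j) q (n k)) v * wt (cop (Wd w) (b j) q) (hit (b j) q (n k')) v ≤
        e k k' * ∏ j, ((Ioc (b j) (b j + q)).card : ℝ) := fun k hk k' hk' => by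
    rw [mem_range] at hk hk'
    rcases lt_trichotomy k k' with hkk | hkk | hkk
    · obtain ⟨h, rfl⟩ : ∃ h, k' = k + h := ⟨k' - k, by omega⟩
      rw [h1 k h (by omega)]
      apply prod_exp (fun j => Ioc (b j) (b j + q))
      · exact fun j => sum_nonneg fun v _ => mul_nonneg (hwn k hk j v) (hwn (k + h) hk' j v)
      · intro j
        rw [hn]
        exact hg k h (by omega) hk' j
    · subst hkk
      rw [h0]
      apply prod_exp (fun j => Ioc (b j) (b j + q))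
      · exact fun j => sum_nonneg fun v _ => mul_nonneg (hwn k hk j v) (hwn k hk j v)
      · intro j
        exact diag (hc k hk j)
    · obtain ⟨h, rfl⟩ : ∃ h, k = k' + h := ⟨k - k', by omega⟩
      rw [h2 k' h (by omega)]
      apply prod_exp (fun j => Ioc (b j) (b j + q))
      · exact fun j => sum_nonneg fun v _ => mul_nonneg (hwn (k' + h) hk j v) (hwn k' hk' j v)
      · intro j
        rw [hn, sum_congr rfl fun v _ => mul_comm _ _]
        exact hg k' h (by omega) hk j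
  have hs : ∑ k ∈ range R, ∑ k' ∈ range R, e k k' ≤ (1 + η) * ((range R).card : ℝ) ^ 2 := by
    rw [card_range, pairs_sum R _ (fun k h => Real.exp (m * (g k h / L ^ 2))) e h0 h1 h2]
    exact hsum
  have hprod : ∏ j : Fin m, ((Ioc (b j) (b j + q)).card : ℝ) = (q : ℝ) ^ m := by
    rw [prod_congr rfl fun j _ => by rw [Nat.card_Ioc, Nat.add_sub_cancel_left], prod_const, card_univ, Fintype.card_fin]
  constructor
  · intro τ hτ
    have key := cheb (fun j => Ioc (b j) (b j + q)) (range R) (nonempty_range_iff.2 hR.ne')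
      (fun k j v => wt (cop (Wd w) (b j) q) (hit (b j) q (n k)) v) hone e htwo η τ hτ hs
    rw [card_range, hprod] at key
    exact key
  · have key := pz (fun j => Ioc (b j) (b j + q)) (range R) (nonempty_range_iff.2 hR.ne')
      (fun k j v => wt (cop (Wd w) (b j) q) (hit (b j) q (n k)) v) hone e htwo η hη hs
    rw [hprod] at key
    exact key

end Pool.Agent.Run7.h364.CW
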