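import Pool.Agent.Run7.h364.CW.Below

/-!
# Random shifts at the critical length, part 5: above the threshold, at the threshold, the longest run
-/

set_option autoImplicit false

namespace Pool.Agent.Run7.h364.CW

open Finset Filter
open Pool.Agent.Run7.h931.RS

/-- above the threshold there are no survivors -/
theorem above (T a : ℕ) (ε : ℝ) (hε : 0 < ε) : ∃ K : ℝ, 1 ≤ K ∧ ∀ᶠ N : ℕ in atTop, ∀ q : ℕ,
    (N : ℝ) ≤ q * Real.log N ^ a → q ≤ N → ∀ (m : ℕ) (b : Fin m → ℕ), (∀ j, b j ≤ T * N) →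
      Real.log N ^ 2 + K * Real.log N ≤ m →
      (((Fintype.piFinset fun j => Ioc (b j) (b j + q)).filter fun s => (sv (Icc 1 N) s).Nonempty).card : ℝ) ≤
        ε * (q : ℝ) ^ m := by
  classical
  obtain ⟨K, hK, h1⟩ := markov T a
  obtain ⟨K₁, hK₁⟩ : ∃ K₁, K₁ = 1 + 2 * (K + |Real.log (1 / ε)|) := ⟨_, rfl⟩
  have hK₁1 : 1 ≤ K₁ := by
    have := abs_nonneg (Real.log (1 / ε))
    rw [hK₁]
    linarith
  refine ⟨K₁, hK₁1, ?_⟩
  filter_upwards [h1, ev_log (2 * K + 1), eventually_ge_atTop 3] with N g1 g2 g3 q hq hqN m b hb hm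
  obtain ⟨L, hL⟩ : ∃ L, L = Real.log (N : ℝ) := ⟨_, rfl⟩
  have hN0 : (0 : ℝ) < N := by exact_mod_cast (by omega : 0 < N)
  have k1 := g1 q hq hqN m b hb (Icc 1 N) (fun n hn => (mem_Icc.1 hn).2)
  rw [← hL] at g2 hm k1
  have hL0 : 0 < L := by linarith
  have k2 : (((Fintype.piFinset fun j => Ioc (b j) (b j + q)).filter fun s => (sv (Icc 1 N) s).Nonempty).card : ℝ) ≤
      ∑ s ∈ Fintype.piFinset (fun j => Ioc (b j) (b j + q)), ((sv (Icc 1 N) s).card : ℝ) := by
    rw [card_filter]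
    push_cast
    apply sum_le_sum
    intro s _
    split_ifs with h
    · exact_mod_cast h.card_pos
    · exact Nat.cast_nonneg _
  refine k2.trans (k1.trans ?_)
  rw [Nat.card_Icc, Nat.add_sub_cancel]
  have k3 : (N : ℝ) = Real.exp L := by rw [hL, Real.exp_log hN0]
  have k4 : (N : ℝ) * ((q : ℝ) ^ m * Real.exp (K * (m / L ^ 2) - m / L)) = Real.exp (L + (K * (m / L ^ 2) - m / L)) * (q : ℝ) ^ m := by
    rw [Real.exp_add, ← k3]
    ring
  rw [k4]
  apply mul_le_mul_of_nonneg_right _ (by positivity)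
  have k5 : K * (m / L ^ 2) - m / L = -((m / L ^ 2) * (L - K)) := by field_simp; ring
  rw [k5]
  have k6 : 1 + K₁ / L ≤ m / L ^ 2 := by
    rw [le_div_iff₀ (by positivity)]
    have : (1 + K₁ / L) * L ^ 2 = L ^ 2 + K₁ * L := by field_simp
    linarith
  have k7 : (1 + K₁ / L) * (L - K) ≤ (m / L ^ 2) * (L - K) := mul_le_mul_of_nonneg_right k6 (by linarith)
  have k8 : (1 + K₁ / L) * (L - K) = L + K₁ - K - K₁ * K / L := by field_simp; ring
  have k9 : K₁ * K / L ≤ K₁ / 2 := by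
    rw [div_le_iff₀ hL0]
    nlinarith
  have k10 : L + -((m / L ^ 2) * (L - K)) ≤ -Real.log (1 / ε) := by
    have := le_abs_self (Real.log (1 / ε))
    rw [k8] at k7
    have : K₁ / 2 = 1 / 2 + (K + |Real.log (1 / ε)|) := by rw [hK₁]; ring
    linarith
  refine (Real.exp_le_exp.2 k10).trans (le_of_eq ?_)
  rw [Real.exp_neg, Real.exp_log (by positivity), one_div, inv_inv]

/-- at the threshold there are survivors with positive probability -/
theorem positive (T a : ℕ) (A : ℝ) : ∃ c : ℝ, 0 < c ∧ ∀ᶠ N : ℕ in atTop, ∀ q : ℕ,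
    (N : ℝ) ≤ q * Real.log N ^ a → q ≤ N → ∀ (m : ℕ) (b : Fin m → ℕ), (∀ j, b j ≤ T * N) →
      (m : ℝ) ≤ Real.log N ^ 2 + A * Real.log N →
      c * (q : ℝ) ^ m ≤
        ((Fintype.piFinset fun j => Ioc (b j) (b j + q)).filter fun s => (sv (up N) s).Nonempty).card := by
  classical
  obtain ⟨Km, hKm, h3⟩ := moments 4 (by norm_num) 1
  have hP : Pw 0 = 1 := by simp [Pw]
  obtain ⟨K, hK, h1⟩ := crit_Z T a 0 2 (1 / 16) Km (by norm_num) le_rfl (by norm_num) (by norm_num) (by linarith)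
    (fun H => by
      refine le_trans (sum_le_sum fun h _ => ?_) (h3 H)
      rw [hP, pow_one]
      have e1 : Real.exp (2 * (2 * 1 * (Fw 0 h - 1))) ≤ Real.exp (4 * Fw 0 h) := Real.exp_le_exp.2 (by linarith)
      linarith)
    (by
      rw [hP]
      have e1 : (2 : ℝ) * (4 * (1 / 16) * 1) = 1 / 2 := by norm_num
      rw [e1]
      have := Real.abs_exp_sub_one_sub_id_le (x := (1 / 2 : ℝ)) (by rw [abs_of_pos (by norm_num)]; norm_num)
      have := (abs_le.1 this).2
      linarith)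
  obtain ⟨C, hC⟩ : ∃ C, C = 1 + (4 * Km + 2 * Km ^ 2 + 8 * Wd 0 * Real.exp (A + 2 * (K + 2 * Pw 0))) := ⟨_, rfl⟩
  have hC0 : 0 < C := by rw [hC]; positivity
  refine ⟨1 / C, by positivity, ?_⟩
  filter_upwards [h1 A, ev_log (|A| + 1)] with N g1 g2 q hq hqN m b hb hm
  obtain ⟨L, hL⟩ : ∃ L, L = Real.log (N : ℝ) := ⟨_, rfl⟩
  have hA := le_abs_self A
  have hA0 := abs_nonneg A
  obtain ⟨n, R, a1, a2, a3, a4, _, a5⟩ := g1 q hq hqN m b hb (by
    rw [← hL] at g2 hm ⊢
    nlinarith) hm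
  rw [← hC] at a5
  have b1 : ((Fintype.piFinset fun j => Ioc (b j) (b j + q)).filter fun s => Zs 0 q b n R s ≠ 0) ⊆
      (Fintype.piFinset fun j => Ioc (b j) (b j + q)).filter fun s => (sv (up N) s).Nonempty := by
    intro s hs
    rw [mem_filter] at hs ⊢
    refine ⟨hs.1, ?_⟩
    obtain ⟨k, hk, hne⟩ := exists_ne_zero_of_sum_ne_zero hs.2
    rw [mem_range] at hk
    refine ⟨n k, ?_⟩
    unfold sv up
    rw [mem_filter, mem_filter, mem_Icc]
    have hk2 := a2 k hk
    have hn1 := fun j => (a4 k hk j).hn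
    refine ⟨⟨⟨?_, hk2.2⟩, hk2.1⟩, fun j hp => ?_⟩
    · by_contra h0
      have h00 : n k = 0 := by omega
      have hN : N = 0 := by omega
      rw [hN] at g2
      simp only [Nat.cast_zero, Real.log_zero] at g2
      linarith
    · rw [prod_ne_zero_iff] at hne
      apply hne j (mem_univ j)
      unfold wt
      rw [if_pos]
      unfold hit
      rw [mem_filter]
      exact ⟨Fintype.mem_piFinset.1 hs.1 j, hp⟩
  have b2 : (((Fintype.piFinset fun j => Ioc (b j) (b j + q)).filter fun s => Zs 0 q b n R s ≠ 0).card : ℝ) ≤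
      ((Fintype.piFinset fun j => Ioc (b j) (b j + q)).filter fun s => (sv (up N) s).Nonempty).card := by
    exact_mod_cast card_le_card b1
  have b3 : (q : ℝ) ^ m ≤ C * ((Fintype.piFinset fun j => Ioc (b j) (b j + q)).filter fun s => (sv (up N) s).Nonempty).card :=
    a5.trans (mul_le_mul_of_nonneg_left b2 hC0.le)
  rw [one_div, inv_mul_le_iff₀ hC0]
  exact b3

/-- the longest run of composite values is `log² N + O(log N)` for all but few shift vectors -/
theorem law (T a : ℕ) (ε : ℝ) (hε : 0 < ε) (hε1 : ε ≤ 1) : ∃ K₀ : ℝ, 1 ≤ K₀ ∧ ∀ K : ℝ, K₀ ≤ K → ∀ᶠ N : ℕ in atTop, ∀ q : ℕ,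
    (N : ℝ) ≤ q * Real.log N ^ a → q ≤ N → ∀ (m : ℕ) (b : Fin m → ℕ), (∀ j, b j ≤ T * N) →
      Real.log N ^ 2 + K * Real.log N ≤ m →
      (((Fintype.piFinset fun j => Ioc (b j) (b j + q)).filter fun s =>
        K * Real.log N < |(run N s : ℝ) - Real.log N ^ 2|).card : ℝ) ≤ ε * (q : ℝ) ^ m := by
  classical
  obtain ⟨K1, hK1, h1⟩ := above T a (ε / 2) (by positivity)
  obtain ⟨K2, hK2, h2⟩ := count T a (ε / 2) (by positivity) (by linarith)
  refine ⟨K1 + K2 + 1, by linarith, fun K hK => ?_⟩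
  filter_upwards [h1, h2, ev_log (K + 1), eventually_ge_atTop 3] with N g1 g2 g3 g4 q hq hqN m b hb hm
  obtain ⟨L, hL⟩ : ∃ L, L = Real.log (N : ℝ) := ⟨_, rfl⟩
  have hN0 : (0 : ℝ) < N := by exact_mod_cast (by omega : 0 < N)
  have k1 := g1 q hq hqN
  have k2 := g2 q hq hqN
  rw [← hL] at g3 hm k1 k2 ⊢
  have hK0 : 0 < K := by linarith
  have hL0 : 0 < L := by linarith
  have hL1 : 1 ≤ L := by linarith
  obtain ⟨Ω, hΩ⟩ : ∃ Ω, Ω = Fintype.piFinset fun j => Ioc (b j) (b j + q) := ⟨_, rfl⟩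
  rw [← hΩ]
  obtain ⟨B1, hB1⟩ : ∃ B1, B1 = Ω.filter fun s => L ^ 2 + K * L < (run N s : ℝ) := ⟨_, rfl⟩
  obtain ⟨B2, hB2⟩ : ∃ B2, B2 = Ω.filter fun s => (run N s : ℝ) < L ^ 2 - K * L := ⟨_, rfl⟩
  have c1 : (B1.card : ℝ) ≤ ε / 2 * (q : ℝ) ^ m := by
    obtain ⟨k, hk⟩ : ∃ k, k = ⌈L ^ 2 + K * L⌉₊ := ⟨_, rfl⟩
    have hkm : k ≤ m := by rw [hk]; exact Nat.ceil_le.2 hm
    obtain ⟨r, rfl⟩ := Nat.exists_eq_add_of_le hkm
    have d1 := k1 k (fun j => b (Fin.castAdd r j)) (fun j => hb _) (by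
      have e1 : L ^ 2 + K * L ≤ k := by rw [hk]; exact Nat.le_ceil _
      have e2 : K1 * L ≤ K * L := mul_le_mul_of_nonneg_right (by linarith) hL0.le
      linarith)
    have d2 := proj q k r b B1 ((Fintype.piFinset fun j : Fin k => Ioc (b (Fin.castAdd r j)) (b (Fin.castAdd r j) + q)).filter
      fun s => (sv (Icc 1 N) s).Nonempty) (by
        intro s hs
        rw [hB1, mem_filter, hΩ, Fintype.mem_piFinset] at hs
        refine ⟨hs.1, ?_⟩
        rw [mem_filter, Fintype.mem_piFinset]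
        refine ⟨fun j => hs.1 _, ?_⟩
        have e1 : k ≤ run N s := hk.le.trans (Nat.ceil_le.2 hs.2.le)
        have e2 : run N s ≠ 0 := by
          intro h0
          rw [h0, Nat.cast_zero] at hs
          have : 0 < L ^ 2 + K * L := by positivity
          linarith [hs.2]
        have e3 : Free N (run N s) s := Nat.findGreatest_of_ne_zero rfl e2
        obtain ⟨n, h1, h2, h3⟩ := e3.mono e1
        refine ⟨n, ?_⟩
        unfold sv
        rw [mem_filter, mem_Icc]
        exact ⟨⟨h1, h2⟩, fun j => h3 _ (by simp)⟩)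
    refine d2.trans ((mul_le_mul_of_nonneg_right d1 (by positivity)).trans (le_of_eq ?_))
    rw [mul_assoc, ← pow_add]
  have c2 : (B2.card : ℝ) ≤ ε / 2 * (q : ℝ) ^ m := by
    obtain ⟨k, hk⟩ : ∃ k, k = ⌊L ^ 2 - K2 * L⌋₊ := ⟨_, rfl⟩
    have hk0 : 0 ≤ L ^ 2 - K2 * L := by nlinarith
    have hk1 : (k : ℝ) ≤ L ^ 2 - K2 * L := by
      rw [hk]
      exact Nat.floor_le hk0
    have hk2 : L ^ 2 - K * L ≤ k := by
      have : L ^ 2 - K2 * L < (k : ℝ) + 1 := by rw [hk]; exact Nat.lt_floor_add_one _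
      nlinarith
    have hkm : k ≤ m := by
      have e1 : 0 ≤ K * L := by positivity
      have e2 : 0 ≤ K2 * L := by positivity
      have : (k : ℝ) ≤ m := by linarith
      exact_mod_cast this
    obtain ⟨r, rfl⟩ := Nat.exists_eq_add_of_le hkm
    have d1 := k2 k (fun j => b (Fin.castAdd r j)) (fun j => hb _) hk1
    have d2 := proj q k r b B2 ((Fintype.piFinset fun j : Fin k => Ioc (b (Fin.castAdd r j)) (b (Fin.castAdd r j) + q)).filter
      fun s => ¬ (N * Real.exp (-(k / L)) / K2 ≤ (sv (up N) s).card ∧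
        ((sv (Icc 1 N) s).card : ℝ) ≤ K2 * (N * Real.exp (-(k / L))))) (by
        intro s hs
        rw [hB2, mem_filter, hΩ, Fintype.mem_piFinset] at hs
        refine ⟨hs.1, ?_⟩
        rw [mem_filter, Fintype.mem_piFinset]
        refine ⟨fun j => hs.1 _, ?_⟩
        rintro ⟨h1, _⟩
        have e1 : 0 < N * Real.exp (-(k / L)) / K2 := by
          have : 0 < K2 := by linarith
          positivity
        have e3 : 0 < (sv (up N) fun j : Fin k => s (Fin.castAdd r j)).card := by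
          have : (0 : ℝ) < (sv (up N) fun j : Fin k => s (Fin.castAdd r j)).card := lt_of_lt_of_le e1 h1
          exact_mod_cast this
        obtain ⟨n, hn⟩ := card_pos.1 e3
        unfold sv up at hn
        rw [mem_filter, mem_filter, mem_Icc] at hn
        have e4 : Free N k s := ⟨n, hn.1.1.1, hn.1.1.2, fun j hj => by
          have := hn.2 ⟨j, hj⟩
          simpa using this⟩
        have e5 : k ≤ run N s := Nat.le_findGreatest (Nat.le_add_right _ _) e4
        have e6 : (k : ℝ) ≤ run N s := by exact_mod_cast e5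
        linarith [hs.2])
    refine d2.trans ((mul_le_mul_of_nonneg_right d1 (by positivity)).trans (le_of_eq ?_))
    rw [mul_assoc, ← pow_add]
  have c3 : (Ω.filter fun s => K * L < |(run N s : ℝ) - L ^ 2|) ⊆ B1 ∪ B2 := by
    intro s hs
    rw [mem_filter] at hs
    rw [mem_union, hB1, hB2, mem_filter, mem_filter]
    rcases lt_abs.1 hs.2 with h | h
    · left
      exact ⟨hs.1, by linarith⟩
    · right
      exact ⟨hs.1, by linarith⟩
  have c4 : (((Ω.filter fun s => K * L < |(run N s : ℝ) - L ^ 2|)).card : ℝ) ≤ B1.card + B2.card := by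
    exact_mod_cast (card_le_card c3).trans (card_union_le B1 B2)
  linarith

end Pool.Agent.Run7.h364.CW
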